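import Pool.Agent.H814R3.EK.Stmts

/-! Task `TaskEK` of the project H814-EK: the congruent number curves over cyclotomic fields.
(helper676) -/

set_option autoImplicit false

open NumberField IsDedekindDomain

namespace Pool.Agent.H814R3.EK.TEK

open Pool.Agent.H82R3.EK Pool.Agent.H438R3.BSD.NF Pool.Agent.H921R2.TatePole

/-! ### growth -/

theorem growth_one {f : ℂ → ℂ} {C M : ℝ}
    (h : ∀ s : ℂ, 1 / 2 ≤ s.re → ‖f s‖ ≤ C * (1 + ‖s‖) ^ M) :
    ∃ C' M' : ℝ, 0 ≤ C' ∧ ∀ s : ℂ, 1 ≤ s.re → ‖f (s - 1 / 2)‖ ≤ C' * (1 + ‖s‖) ^ M' := by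
  refine ⟨|C| * 2 ^ (max M 0), max M 0, by positivity, fun s hs => ?_⟩
  have h1 := h (s - 1 / 2) (by
    have : (s - 1 / 2).re = s.re - 1 / 2 := by simp
    rw [this]; linarith)
  have hn : ‖s - 1 / 2‖ ≤ ‖s‖ + 1 := by
    refine (norm_sub_le _ _).trans ?_
    have : ‖(1 / 2 : ℂ)‖ ≤ 1 := by norm_num
    linarith
  have h0 : 1 ≤ 1 + ‖s - 1 / 2‖ := by linarith [norm_nonneg (s - 1 / 2)]
  calc ‖f (s - 1 / 2)‖ ≤ C * (1 + ‖s - 1 / 2‖) ^ M := h1
    _ ≤ |C| * (1 + ‖s - 1 / 2‖) ^ M :=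
        mul_le_mul_of_nonneg_right (le_abs_self C) (by positivity)
    _ ≤ |C| * (1 + ‖s - 1 / 2‖) ^ (max M 0) :=
        mul_le_mul_of_nonneg_left (Real.rpow_le_rpow_of_exponent_le h0 (le_max_left _ _))
          (abs_nonneg C)
    _ ≤ |C| * (2 * (1 + ‖s‖)) ^ (max M 0) := by
        apply mul_le_mul_of_nonneg_left _ (abs_nonneg C)
        apply Real.rpow_le_rpow (by positivity) _ (le_max_right _ _)
        linarith [norm_nonneg s]
    _ = |C| * 2 ^ (max M 0) * (1 + ‖s‖) ^ (max M 0) := by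
        rw [Real.mul_rpow (by norm_num) (by positivity)]
        ring

theorem growth_prod {ι : Type*} (S : Finset ι) (f : ι → ℂ → ℂ)
    (h : ∀ i ∈ S, ∃ C M : ℝ, 0 ≤ C ∧ ∀ s : ℂ, 1 ≤ s.re → ‖f i s‖ ≤ C * (1 + ‖s‖) ^ M) :
    ∃ C M : ℝ, 0 ≤ C ∧ ∀ s : ℂ, 1 ≤ s.re → ‖∏ i ∈ S, f i s‖ ≤ C * (1 + ‖s‖) ^ M := by
  classical
  induction S using Finset.induction_on with
  | empty => exact ⟨1, 0, zero_le_one, fun s _ => by simp⟩
  | insert i S hi ih =>
    obtain ⟨C1, M1, hC1, h1⟩ := h i (Finset.mem_insert_self _ _)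
    obtain ⟨C2, M2, hC2, h2⟩ := ih fun j hj => h j (Finset.mem_insert_of_mem hj)
    refine ⟨C1 * C2, M1 + M2, mul_nonneg hC1 hC2, fun s hs => ?_⟩
    rw [Finset.prod_insert hi, norm_mul, Real.rpow_add (by positivity)]
    calc ‖f i s‖ * ‖∏ j ∈ S, f j s‖ ≤ (C1 * (1 + ‖s‖) ^ M1) * (C2 * (1 + ‖s‖) ^ M2) :=
          mul_le_mul (h1 s hs) (h2 s hs) (norm_nonneg _) (by positivity)
      _ = _ := by ring

/-! ### the local factors -/

section
variable {K : Type} [Field K] [NumberField K]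

theorem good_iff (D : ℕ) (v : HeightOneSpectrum (𝓞 K)) :
    Good (-(D : 𝓞 K) ^ 2) 0 v ↔ ¬ (below v : ℕ) ∣ 2 * D := by
  unfold Good
  rw [not_iff_not, ← natCast_mem_iff]
  have h1 : 2 * (4 * (-(D : 𝓞 K) ^ 2) ^ 3 + 27 * 0 ^ 2) = -((2 : 𝓞 K) ^ 3 * (D : 𝓞 K) ^ 6) := by
    ring
  rw [h1, neg_mem_iff]
  push_cast
  constructor
  · intro h
    rcases v.isPrime.mem_or_mem h with h2 | h2
    · exact v.asIdeal.mul_mem_right _ (v.isPrime.mem_of_pow_mem 3 h2)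
    · exact v.asIdeal.mul_mem_left _ (v.isPrime.mem_of_pow_mem 6 h2)
  · intro h
    rcases v.isPrime.mem_or_mem h with h2 | h2
    · exact v.asIdeal.mul_mem_right _ (v.asIdeal.pow_mem_of_mem h2 3 (by norm_num))
    · exact v.asIdeal.mul_mem_left _ (v.asIdeal.pow_mem_of_mem h2 6 (by norm_num))

theorem Np_eq (D : ℕ) (v : HeightOneSpectrum (𝓞 K)) : Np (-(D : 𝓞 K) ^ 2) 0 v =
    Nat.card {x : (𝓞 K ⧸ v.asIdeal) × (𝓞 K ⧸ v.asIdeal) //
      x.2 ^ 2 = x.1 ^ 3 - (D : 𝓞 K ⧸ v.asIdeal) ^ 2 * x.1} := by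
  unfold Np
  apply Nat.card_congr
  refine Equiv.subtypeEquivRight (fun x => ?_)
  simp only [map_zero, add_zero, map_neg, map_pow, map_natCast]
  rw [show -(D : 𝓞 K ⧸ v.asIdeal) ^ 2 * x.1 = -((D : 𝓞 K ⧸ v.asIdeal) ^ 2 * x.1) by ring,
    ← sub_eq_add_neg]

open Classical in
theorem factor_match (D : ℕ) (s : ℂ) (v : HeightOneSpectrum (𝓞 K)) :
    (if Good (-(D : 𝓞 K) ^ 2) 0 v then
      (1 - ((Ideal.absNorm v.asIdeal : ℂ) - (Np (-(D : 𝓞 K) ^ 2) 0 v : ℂ)) *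
          (Ideal.absNorm v.asIdeal : ℂ) ^ (-s) +
        (Ideal.absNorm v.asIdeal : ℂ) ^ (1 - 2 * s))⁻¹ else 1) =
      Pool.Agent.H82R3.EK.factor (crv D (𝓞 K)) s v := by
  by_cases hv : (below v : ℕ) ∣ 2 * D
  · rw [if_neg (fun h => (good_iff D v).mp h hv), factor_bad v hv]
  · rw [if_pos ((good_iff D v).mpr hv), Np_eq]
    unfold Pool.Agent.H82R3.EK.factor
    rw [count_simp, if_neg (fun h => hv ((Δ_mem_iff v).1 h)), one_mul]
    push_cast
    rfl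

end

theorem ek_ok (h : TaskTw) : TaskEK := by
  intro D q hD hsf hq hco K _ _ _
  obtain ⟨L, hL⟩ := h D hD hsf
  have hNZ : NeZero q := ⟨by omega⟩
  have hcond : ∀ χ : DirichletCharacter ℂ q, 1 ≤ χ.conductor ∧ Nat.Coprime χ.conductor (2 * D) ∧
      χ.primitiveCharacter.IsPrimitive := fun χ =>
    ⟨Nat.one_le_iff_ne_zero.2 χ.conductor_ne_zero,
      Nat.Coprime.coprime_dvd_left χ.conductor_dvd_level hco, χ.primitiveCharacter_isPrimitive⟩
  refine ⟨fun s => ∏ χ : DirichletCharacter ℂ q, L χ.conductor χ.primitiveCharacter (s - 1 / 2),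
    ⟨?_, ?_⟩, ?_⟩
  · have h1 : ∀ χ : DirichletCharacter ℂ q, Differentiable ℂ
        (fun s => L χ.conductor χ.primitiveCharacter (s - 1 / 2)) := by
      intro χ
      obtain ⟨a1, a2, a3⟩ := hcond χ
      have h2 := (hL χ.conductor χ.primitiveCharacter a1 a2 a3).1
      exact h2.comp (differentiable_id.sub_const _)
    intro s
    exact DifferentiableAt.fun_finsetProd fun χ _ => (h1 χ) s
  · intro s hs
    have h1 := hasProd_euler (D := D) L (fun q χ a1 a2 a3 =>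
      ⟨(hL q χ a1 a2 a3).1, (hL q χ a1 a2 a3).2.1⟩) q hco K s hs
    have h2 : (Pool.Agent.H82R3.EK.factor (K := K) (crv D (𝓞 K)) s) = _ :=
      funext fun v => (factor_match D s v).symm
    rw [h2] at h1
    exact h1
  · obtain ⟨C, M, -, hCM⟩ := growth_prod Finset.univ
      (fun χ : DirichletCharacter ℂ q => fun s => L χ.conductor χ.primitiveCharacter (s - 1 / 2))
      (fun χ _ => by
        obtain ⟨a1, a2, a3⟩ := hcond χ
        obtain ⟨-, -, C, M, hCM⟩ := hL χ.conductor χ.primitiveCharacter a1 a2 a3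
        exact growth_one hCM)
    exact ⟨C, M, hCM⟩

end Pool.Agent.H814R3.EK.TEK
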