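import Pool.Agent.H814R3.EK.T_Tw
import Pool.Agent.H814R3.EK.T_EK
import Pool.Agent.H820R3.BSDN.G5

/-! The congruent number curves over cyclotomic fields: the equivalences, without hypotheses. -/

set_option autoImplicit false

open Filter NumberField

namespace Pool.Agent.H814R3.EK

open Pool.Agent.H438R3.BSD.NF

/-- Riemann hypothesis and logarithmic averages for `y² = x³ - D² x` over `ℚ(ζ_q)`. -/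
theorem cyclotomic (D q : ℕ) (hD : Odd D) (hsf : Squarefree D) (hq : 1 ≤ q)
    (hqD : Nat.Coprime q (2 * D)) (K : Type) [Field K] [NumberField K]
    [IsCyclotomicExtension {q} ℚ K] :
    ∃ F : ℂ → ℂ, IsL (-(D : 𝓞 K) ^ 2) 0 F ∧ ∃ m : ℕ, analyticOrderAt F 1 = m ∧
      ((∀ s : ℂ, 1 < s.re → F s ≠ 0) ↔
        ∃ κ C : ℝ, ∀ n : ℕ, LA (-(D : 𝓞 K) ^ 2) 0 κ n ≤ C) ∧ ∀ κ : ℝ,
      ((∃ C : ℝ, ∀ n : ℕ, LA (-(D : 𝓞 K) ^ 2) 0 κ n ≤ C) ↔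
        (∀ s : ℂ, 1 < s.re → F s ≠ 0) ∧ (m : ℝ) ≤ κ) ∧
      ((∃ C : ℝ, ∀ n : ℕ, |LA (-(D : 𝓞 K) ^ 2) 0 κ n| ≤ C) ↔
        (∀ s : ℂ, 1 < s.re → F s ≠ 0) ∧ κ = m) := by
  obtain ⟨F, hF, hgr⟩ := TEK.ek_ok tw_ok D q hD hsf hq hqD K
  obtain ⟨m, hm, h⟩ := Pool.Agent.H820R3.BSDN.iff_NF _ _ hF hgr
  refine ⟨F, hF, m, hm, ⟨fun hRH => ⟨m, ?_⟩, ?_⟩, fun κ => ⟨(h κ).1, (h κ).2.1⟩⟩
  · exact (h m).1.2 ⟨hRH, le_rfl⟩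
  · rintro ⟨κ, C, hC⟩
    exact ((h κ).1.1 ⟨C, hC⟩).1

end Pool.Agent.H814R3.EK
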