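import Pool.Agent.H438R3.BSD.NF3
import Pool.Agent.H82R3.EK.Euler

/-! The congruent number curves over cyclotomic fields: statements of the pieces. -/

set_option autoImplicit false

open NumberField

namespace Pool.Agent.H814R3.EK

/-- The incomplete `L`-function of `y² = x³ - D² x` over `K = ℚ(ζ_q)`, `q` prime to `2 D`, `D` odd and
squarefree, is entire and of polynomial growth in `Re s ≥ 1`. -/
def TaskEK : Prop := ∀ (D q : ℕ), Odd D → Squarefree D → 1 ≤ q → Nat.Coprime q (2 * D) →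
  ∀ (K : Type) [Field K] [NumberField K] [IsCyclotomicExtension {q} ℚ K],
    ∃ F : ℂ → ℂ, Pool.Agent.H438R3.BSD.NF.IsL (-(D : 𝓞 K) ^ 2) 0 F ∧
      ∃ C M : ℝ, ∀ s : ℂ, 1 ≤ s.re → ‖F s‖ ≤ C * (1 + ‖s‖) ^ M

/-- The twists by Dirichlet characters: continuation, Euler product, growth. -/
def TaskTw : Prop := ∀ D : ℕ, Odd D → Squarefree D →
  ∃ L : (q : ℕ) → DirichletCharacter ℂ q → ℂ → ℂ, ∀ (q : ℕ) (χ : DirichletCharacter ℂ q),
    1 ≤ q → Nat.Coprime q (2 * D) → χ.IsPrimitive →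
    Differentiable ℂ (L q χ) ∧
    (∀ s : ℂ, 1 < s.re → HasProd (fun p : Nat.Primes => H385.eulD D q χ s p) (L q χ s)) ∧
    ∃ C M : ℝ, ∀ s : ℂ, 1 / 2 ≤ s.re → ‖L q χ s‖ ≤ C * (1 + ‖s‖) ^ M

end Pool.Agent.H814R3.EK
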