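import Pool.Agent.H814R3.EK.Stmts
import Pool.Agent.H385R2.EcFin

/-!
Task Tw: the twists by Dirichlet characters: continuation, Euler product, growth.
-/

set_option autoImplicit false

open Complex Filter Topology

namespace Pool.Agent.H814R3.EK.TTw

open Pool.Agent.H304R2.EC (FF C0 C0_nonneg FF_le_C0 FF_growth FF_entire FF_conj)

theorem growth (q : ℕ) [NeZero q] (hq : Odd q) (χ : DirichletCharacter ℂ q)
    (hχ : χ.IsPrimitive) :
    ∃ C M : ℝ, ∀ s : ℂ, 1 / 2 ≤ s.re → ‖FF q χ s‖ ≤ C * (1 + ‖s‖) ^ M := by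
  obtain ⟨A, hA, hgr⟩ := FF_growth
  have hent : Differentiable ℂ (FF q χ) := FF_entire q hq χ hχ
  have hχ' : (χ⁻¹).IsPrimitive := by
    unfold DirichletCharacter.IsPrimitive
    rw [DirichletCharacter.conductor_inv]
    exact hχ
  have hcomp : IsCompact (Set.Icc (1 / 2 : ℝ) (3 / 2) ×ℂ Set.Icc (-1 : ℝ) 1) :=
    isCompact_Icc.reProdIm isCompact_Icc
  obtain ⟨M, hM⟩ := hcomp.exists_bound_of_continuousOn (f := FF q χ) hent.continuous.continuousOn
  have hM0 : 0 ≤ |M| := abs_nonneg M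
  have hC0 := C0_nonneg
  have hDA : 0 ≤ A * (q : ℝ) ^ A := mul_nonneg (by linarith) (Real.rpow_nonneg (Nat.cast_nonneg q) A)
  refine ⟨C0 + A * (q : ℝ) ^ A + |M|, A, ?_⟩
  intro s hs
  have h1 : (1 : ℝ) ≤ (1 + ‖s‖) ^ A :=
    Real.one_le_rpow (by have := norm_nonneg s; linarith) (by linarith)
  have hdist : (C0 + A * (q : ℝ) ^ A + |M|) * (1 + ‖s‖) ^ A =
      C0 * (1 + ‖s‖) ^ A + A * (q : ℝ) ^ A * (1 + ‖s‖) ^ A + |M| * (1 + ‖s‖) ^ A := by ring
  have t1 : C0 ≤ C0 * (1 + ‖s‖) ^ A := le_mul_of_one_le_right hC0 h1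
  have t3 : |M| ≤ |M| * (1 + ‖s‖) ^ A := le_mul_of_one_le_right hM0 h1
  have t2 : 0 ≤ A * (q : ℝ) ^ A * (1 + ‖s‖) ^ A := mul_nonneg hDA (by linarith)
  rw [hdist]
  by_cases hre : 3 / 2 ≤ s.re
  · have := FF_le_C0 q χ s hre
    linarith
  push Not at hre
  have him : ∀ y : ℝ, 1 ≤ y → y ≤ ‖s‖ → A * ((q : ℝ) * y) ^ A ≤ A * (q : ℝ) ^ A * (1 + ‖s‖) ^ A := by
    intro y hy1 hy2
    rw [Real.mul_rpow (Nat.cast_nonneg q) (by linarith), ← mul_assoc]
    apply mul_le_mul_of_nonneg_left _ hDA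
    exact Real.rpow_le_rpow (by linarith) (by linarith) (by linarith)
  rcases le_or_gt 1 s.im with hi | hi
  · have := hgr q χ hq hχ s (by linarith) (by linarith) hi
    have h5 := him s.im hi ((le_abs_self _).trans (Complex.abs_im_le_norm s))
    linarith
  rcases le_or_gt s.im (-1) with hi2 | hi2
  · have hc : ‖FF q χ s‖ = ‖FF q χ⁻¹ ((starRingEnd ℂ) s)‖ := by
      rw [FF_conj q χ s, Complex.norm_conj]
    rw [hc]
    have := hgr q χ⁻¹ hq hχ' ((starRingEnd ℂ) s)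
      (by rw [Complex.conj_re]; linarith) (by rw [Complex.conj_re]; linarith)
      (by rw [Complex.conj_im]; linarith)
    rw [Complex.conj_im] at this
    have h5 := him (-s.im) (by linarith) ((neg_le_abs _).trans (Complex.abs_im_le_norm s))
    linarith
  · have := hM s (by
      rw [Complex.mem_reProdIm]
      exact ⟨⟨by linarith, by linarith⟩, ⟨hi2.le, hi.le⟩⟩)
    have h7 := le_abs_self M
    linarith

theorem task : TaskTw := by
  intro D hD hsf
  have hD0 : D ≠ 0 := by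
    rintro rfl
    exact absurd hD (by decide)
  obtain ⟨ψ, hψ, hψj⟩ := H385.jac_char D hD hsf
  refine ⟨H385.LD D ψ, fun q χ hq hqM hχ => ?_⟩
  obtain ⟨h1, h2⟩ := H385.LD_props D hD ψ hψ hψj q χ hq hqM hχ
  refine ⟨h1, h2, ?_⟩
  have i1 : NeZero q := ⟨by omega⟩
  have i2 : NeZero D := ⟨hD0⟩
  have i3 : NeZero (q * D) := ⟨Nat.mul_ne_zero (by omega) hD0⟩
  have hq2 : Nat.Coprime q 2 := Nat.Coprime.coprime_mul_right_right hqM
  have hqD : Nat.Coprime q D := Nat.Coprime.coprime_mul_left_right hqM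
  have hqodd : Odd q := Nat.Coprime.odd_of_right hq2
  exact growth (q * D) (hqodd.mul hD) (H385.pm χ ψ) (H385.pm_primitive hqD hχ hψ)

end Pool.Agent.H814R3.EK.TTw

namespace Pool.Agent.H814R3.EK

theorem tw_ok : Pool.Agent.H814R3.EK.TaskTw := TTw.task

end Pool.Agent.H814R3.EK
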